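import Pool.Agent.Lib.P2020ba.Kernel

/-!
# Universality depends on few extreme points

A polynomial kernel for the computation of the universality of a point set, the parameter being the
number of points of the set which are not extreme.
-/

set_option autoImplicit false

namespace Pool.Agent.Results.MP_2020ba_lc.InnerKernel

/-- `φ` is a planar straight-line drawing of `G`: it is injective, the closed segments joining the
images of adjacent vertices pairwise meet only in images of shared end points, and no vertex lies on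
an edge of which it is not an end. -/
def IsDrawing {V : Type} (G : SimpleGraph V) (φ : V → ℝ × ℝ) : Prop :=
  Function.Injective φ ∧
  (∀ a b c d, G.Adj a b → G.Adj c d → s(a, b) ≠ s(c, d) →
    ∀ x, x ∈ segment ℝ (φ a) (φ b) → x ∈ segment ℝ (φ c) (φ d) →
      ∃ v, (v = a ∨ v = b) ∧ (v = c ∨ v = d) ∧ x = φ v) ∧
  (∀ v a b, G.Adj a b → φ v ∈ segment ℝ (φ a) (φ b) → v = a ∨ v = b)

/-- a graph is planar if it has a planar straight-line drawing -/
def IsPlanar {V : Type} (G : SimpleGraph V) : Prop := ∃ φ : V → ℝ × ℝ, IsDrawing G φ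

/-- `S` is universal for the `n`-vertex planar graphs: each planar graph with at most `n` vertices
has a planar straight-line drawing with all vertices at points of `S` -/
def IsUniversal (S : Finset (ℝ × ℝ)) (n : ℕ) : Prop :=
  ∀ k ≤ n, ∀ G : SimpleGraph (Fin k), IsPlanar G →
    ∃ φ : Fin k → ℝ × ℝ, IsDrawing G φ ∧ ∀ v, φ v ∈ S

/-- `p` is in the convex hull of the points of `S` different from `p` -/
def InHullOfOthers (S : Finset (ℝ × ℝ)) (p : ℝ × ℝ) : Prop :=
  p ∈ convexHull ℝ {q : ℝ × ℝ | q ∈ S ∧ q ≠ p}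

open Classical in
/-- the extreme points of `S`: the points of `S` which are not in the convex hull of the others -/
noncomputable def extreme (S : Finset (ℝ × ℝ)) : Finset (ℝ × ℝ) :=
  S.filter (fun p => ¬ InHullOfOthers S p)

open Classical in
/-- the points of `S` which are not extreme -/
noncomputable def nonextreme (S : Finset (ℝ × ℝ)) : Finset (ℝ × ℝ) :=
  S.filter (fun p => InHullOfOthers S p)

/-- the orientation determinant: positive iff `p`, `q`, `r` is a left turn -/
def ori (p q r : ℝ × ℝ) : ℝ := (q.1 - p.1) * (r.2 - p.2) - (q.2 - p.2) * (r.1 - p.1)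

/-- the scalar product of `a - y` and `z - y` -/
def dot (a y z : ℝ × ℝ) : ℝ := (a.1 - y.1) * (z.1 - y.1) + (a.2 - y.2) * (z.2 - y.2)

/-- the triples `t` and `t'` have the same coincidences and the same position with respect to the
points of `I` -/
structure SameType (I : Finset (ℝ × ℝ)) (t t' : Fin 3 → ℝ × ℝ) : Prop where
  eq : ∀ i j, (t i = t j ↔ t' i = t' j)
  one : ∀ i, ∀ y ∈ I, ∀ z ∈ I, (0 < ori (t i) y z ↔ 0 < ori (t' i) y z)
  dt : ∀ i, ∀ y ∈ I, ∀ z ∈ I, (0 < dot (t i) y z ↔ 0 < dot (t' i) y z)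
  two : ∀ i j, ∀ y ∈ I, (0 < ori (t i) (t j) y ↔ 0 < ori (t' i) (t' j) y)
  three : 0 < ori (t 0) (t 1) (t 2) ↔ 0 < ori (t' 0) (t' 1) (t' 2)

/-- `S'` is a subset of `S` which contains the points of `S` which are not extreme and, with each
triple of extreme points of `S`, a triple of extreme points of `S` of the same type -/
structure IsSample (S S' : Finset (ℝ × ℝ)) : Prop where
  sub : S' ⊆ S
  keep : nonextreme S ⊆ S'
  rep : ∀ t : Fin 3 → ℝ × ℝ, (∀ i, t i ∈ extreme S) →
    ∃ t' : Fin 3 → ℝ × ℝ, (∀ i, t' i ∈ extreme S ∧ t' i ∈ S') ∧ SameType (nonextreme S) t t'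

theorem set_eq (S : Finset (ℝ × ℝ)) (p : ℝ × ℝ) :
    ((S.erase p : Finset (ℝ × ℝ)) : Set (ℝ × ℝ)) = {q : ℝ × ℝ | q ∈ S ∧ q ≠ p} := by
  ext q
  rw [Finset.mem_coe, Finset.mem_erase]
  exact and_comm

theorem extreme_eq (S : Finset (ℝ × ℝ)) : extreme S = P2020ba.ext S := by
  classical
  ext p
  unfold extreme P2020ba.ext InHullOfOthers
  rw [Finset.mem_filter, Finset.mem_filter]
  rw [← set_eq S p]

theorem nonextreme_eq (S : Finset (ℝ × ℝ)) : nonextreme S = P2020ba.inner S := by
  classical
  ext p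
  unfold nonextreme P2020ba.inner InHullOfOthers
  rw [Finset.mem_filter, Finset.mem_filter]
  rw [← set_eq S p]

theorem two_of_eqv {I : Finset (ℝ × ℝ)} {t t' : Fin 3 → ℝ × ℝ} (h : P2020ba.Eqv I t t') :
    ∀ i j, ∀ y ∈ I, (0 < ori (t i) (t j) y ↔ 0 < ori (t' i) (t' j) y) := by
  intro i j y hy
  by_cases hij : i = j
  · subst hij
    have e : ∀ p y : ℝ × ℝ, ori p p y = 0 := by
      intro p y
      unfold ori
      ring
    rw [e, e]
  · exact h.two i j hij y hy

/-- Let `i` be the number of points of `S` which are not extreme. If `S` is universal for the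
`n`-vertex planar graphs then `n ≤ i + 3`; each sample of `S` is universal for the same numbers as
`S`; and there is a sample with at most `49 * (i + 1) ^ 54` points. -/
theorem result (S : Finset (ℝ × ℝ)) :
    (∀ n, IsUniversal S n → n ≤ (nonextreme S).card + 3) ∧
    (∀ S' : Finset (ℝ × ℝ), IsSample S S' → ∀ n, (IsUniversal S' n ↔ IsUniversal S n)) ∧
    (∃ S' : Finset (ℝ × ℝ), IsSample S S' ∧ S'.card ≤ 49 * ((nonextreme S).card + 1) ^ 54) := by
  refine ⟨?_, ?_, ?_⟩
  · intro n hn
    rw [nonextreme_eq]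
    exact P2020ba.card_le_inner hn
  · intro S' h n
    obtain ⟨h1, h2, h3⟩ := h
    rw [nonextreme_eq] at h2
    refine P2020ba.universal_of_rep h2 h1 ?_ n
    intro t ht
    obtain ⟨t', g1, g2⟩ := h3 t (fun i => by rw [extreme_eq]; exact ht i)
    rw [nonextreme_eq] at g2
    refine ⟨t', fun i => ?_, g2.eq, ?_⟩
    · have := g1 i
      rwa [extreme_eq] at this
    · exact ⟨g2.one, g2.dt, fun i j _ y hy => g2.two i j y hy, g2.three⟩
  · obtain ⟨S', h1, h2, h3, h4⟩ := P2020ba.exists_rep S
    refine ⟨S', ⟨h2, ?_, ?_⟩, ?_⟩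
    · rw [nonextreme_eq]
      exact h1
    · intro t ht
      obtain ⟨t', g1, g2, g3⟩ := h3 t (fun i => by rw [← extreme_eq]; exact ht i)
      refine ⟨t', fun i => ?_, ?_⟩
      · rw [extreme_eq]
        exact g1 i
      · rw [nonextreme_eq]
        exact ⟨g2, g3.one, g3.dt, two_of_eqv g3, g3.three⟩
    · rw [nonextreme_eq]
      exact h4

end Pool.Agent.Results.MP_2020ba_lc.InnerKernel
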